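import Mathlib

open Finset

namespace Pool.Agent.Results.MP_e77370_co.CrossQSumsFalse

/-- Two families of finite sets are cross-`q`-intersecting when each member of the first shares
at least `q` elements with each member of the second. -/
def CrossInt (q : ℕ) (F G : Finset (Finset ℕ)) : Prop :=
  ∀ A ∈ F, ∀ B ∈ G, q ≤ (A ∩ B).card

/-- Admissible parameters: `t ≥ 2`, `q ≥ 1`, `k 1 ≥ k 2 ≥ … ≥ k t ≥ q + 1` and
`n ≥ k 1 + k 2 - q + 1`. -/
def Admissible (t q n : ℕ) (k : ℕ → ℕ) : Prop :=
  2 ≤ t ∧ 1 ≤ q ∧ (∀ i j : ℕ, 1 ≤ i → i ≤ j → j ≤ t → k j ≤ k i) ∧ q + 1 ≤ k t ∧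
    (k 1 : ℤ) + (k 2 : ℤ) - (q : ℤ) + 1 ≤ (n : ℤ)

/-- `M₁`, an integer. -/
def M1 (t q n : ℕ) (k : ℕ → ℕ) : ℤ :=
  (Nat.choose n (k 1) : ℤ)
    - ∑ j ∈ range q, (Nat.choose (k t) j : ℤ) * (Nat.choose (n - k t) (k 1 - j) : ℤ)
    + ∑ j ∈ Icc 2 t, (Nat.choose (n - k t) (k j - k t) : ℤ)

/-- `M₂`, an integer. -/
def M2 (t q n : ℕ) (k : ℕ → ℕ) : ℤ :=
  ∑ j ∈ Icc 1 t, (Nat.choose (n - q) (k j - q) : ℤ)

/-- `F 1, …, F t` are non-empty families, `F j` consisting of `k j`-element subsets of
`{1, …, n}`, and `F i`, `F j` are cross-`q`-intersecting whenever `i ≠ j`. -/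
def IsSystem (t q n : ℕ) (k : ℕ → ℕ) (F : ℕ → Finset (Finset ℕ)) : Prop :=
  (∀ j ∈ Icc 1 t, F j ⊆ powersetCard (k j) (Icc 1 n) ∧ (F j).Nonempty) ∧
    ∀ i ∈ Icc 1 t, ∀ j ∈ Icc 1 t, i ≠ j → CrossInt q (F i) (F j)

/-- The inequality of the question, for the given parameters. -/
def BoundHolds (t q n : ℕ) (k : ℕ → ℕ) : Prop :=
  ∀ F : ℕ → Finset (Finset ℕ), IsSystem t q n k F →
    ∑ j ∈ Icc 1 t, ((F j).card : ℤ) ≤ max (M1 t q n k) (M2 t q n k)

/-- For every `t ≥ 3` and every `q ≥ 2` the inequality fails at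
`k₁ = … = k_t = q + 1`, `n = q + 3`; in particular the answer to the question is negative. -/
theorem result :
    (¬ ∀ (t q n : ℕ) (k : ℕ → ℕ), Admissible t q n k → BoundHolds t q n k) ∧
    ∀ t q : ℕ, 3 ≤ t → 2 ≤ q → Admissible t q (q + 3) (fun _ => q + 1) ∧
      ¬ BoundHolds t q (q + 3) (fun _ => q + 1) := by
  have main : ∀ t q : ℕ, 3 ≤ t → 2 ≤ q → Admissible t q (q + 3) (fun _ => q + 1) ∧
      ¬ BoundHolds t q (q + 3) (fun _ => q + 1) := by
    intro t q ht hq
    refine ⟨⟨by omega, by omega, fun i j _ _ _ => le_refl _, le_refl _, by push_cast; linarith⟩, ?_⟩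
    intro h
    have h1 := h (fun _ => powersetCard (q + 1) (Icc 1 (q + 2))) ?_
    · have hc : (powersetCard (q + 1) (Icc 1 (q + 2))).card = q + 2 := by
        rw [card_powersetCard, Nat.card_Icc]
        simp
      have hM2 : M2 t q (q + 3) (fun _ => q + 1) = 3 * t := by
        unfold M2
        have : q + 3 - q = 3 := by omega
        have h2 : q + 1 - q = 1 := by omega
        simp only [this, h2, Nat.choose_one_right, sum_const, Nat.card_Icc, nsmul_eq_mul]
        simp
        ring
      have hM1 : M1 t q (q + 3) (fun _ => q + 1) = 2 * q + 2 + t := by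
        unfold M1
        obtain ⟨p, rfl⟩ : ∃ p, q = p + 1 := ⟨q - 1, by omega⟩
        have e1 : p + 1 + 3 - (p + 1 + 1) = 2 := by omega
        have e2 : p + 1 + 1 - (p + 1 + 1) = 0 := by omega
        simp only [e1, e2, Nat.choose_zero_right, sum_const, Nat.card_Icc, nsmul_eq_mul]
        rw [sum_range_succ]
        have hz : ∑ j ∈ range p, ((Nat.choose (p + 1 + 1) j : ℤ) * (Nat.choose 2 (p + 1 + 1 - j) : ℤ))
            = 0 := by
          apply sum_eq_zero
          intro j hj
          rw [mem_range] at hj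
          rw [Nat.choose_eq_zero_of_lt (show 2 < p + 1 + 1 - j by omega)]
          simp
        rw [hz]
        have e3 : p + 1 + 1 - p = 2 := by omega
        rw [e3]
        have e4 : (p + 1 + 1).choose p = (p + 2).choose 2 := by
          rw [← Nat.choose_symm_add]
        have e5 : (p + 1 + 3).choose (p + 1 + 1) = (p + 4).choose 2 := by
          have := Nat.choose_symm_add (a := p + 2) (b := 2)
          simpa using this
        rw [e4, e5]
        have e6 : ((p + 4).choose 2 : ℤ) = (p + 2).choose 2 + (2 * p + 5) := by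
          have a1 : (p + 4).choose 2 = (p + 3) + (p + 3).choose 2 := by
            rw [Nat.choose_succ_succ' (p + 3) 1, Nat.choose_one_right]
          have a2 : (p + 3).choose 2 = (p + 2) + (p + 2).choose 2 := by
            rw [Nat.choose_succ_succ' (p + 2) 1, Nat.choose_one_right]
          rw [a1, a2]
          push_cast
          ring
        rw [e6]
        have e7 : ((t + 1 - 2 : ℕ) : ℤ) = t - 1 := by
          have : t + 1 - 2 + 1 = t := by omega
          have h3 : ((t + 1 - 2 : ℕ) : ℤ) + 1 = t := by exact_mod_cast this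
          linarith
        rw [e7]
        simp
        ring
      rw [hM1, hM2] at h1
      simp only [hc, sum_const, Nat.card_Icc, nsmul_eq_mul] at h1
      have h2 : ((t + 1 - 1 : ℕ) : ℤ) = t := by simp
      rw [h2] at h1
      push_cast at h1
      have ht' : (3 : ℤ) ≤ t := by exact_mod_cast ht
      have hq' : (2 : ℤ) ≤ q := by exact_mod_cast hq
      rcases le_max_iff.mp h1 with h3 | h3
      · nlinarith
      · nlinarith
    · constructor
      · intro j _
        constructor
        · exact powersetCard_mono (Icc_subset_Icc le_rfl (by omega))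
        · rw [powersetCard_nonempty, Nat.card_Icc]
          omega
      · intro i _ j _ _ A hA B hB
        rw [mem_powersetCard] at hA hB
        have hu : (A ∪ B).card ≤ q + 2 := by
          have := card_le_card (union_subset hA.1 hB.1)
          rw [Nat.card_Icc] at this
          omega
        have := card_union_add_card_inter A B
        omega
  refine ⟨?_, main⟩
  intro h
  obtain ⟨h1, h2⟩ := main 3 2 le_rfl le_rfl
  exact h2 (h _ _ _ _ h1)

end Pool.Agent.Results.MP_e77370_co.CrossQSumsFalse
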